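import Pool.Agent.Q264.BlockUpper
set_option autoImplicit false
open Finset Filter Topology

/-! The limit `φ_d(n)/n^{d-1}` exists and equals `2/d!` (MP_d4e795_co). -/

namespace Pool.Agent.Results.MP_d4e795_co.LimitExists

open Pool.Agent.Q264.Block

/-- eventual upper bound -/
lemma upper_eventually (d : ℕ) (hd : 3 ≤ d) (N : ℕ) (hN : 2 ≤ N) :
    ∀ᶠ n : ℕ in atTop, (phi d n : ℝ) / (n : ℝ) ^ (d - 1) ≤ 2 / (d.factorial : ℝ) + 3 / N := by
  set K0 : ℕ := N * ((d + 1) * (4 * N ^ 2 * d ^ 2)) with hK0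
  have hK0pos : 1 ≤ K0 := by
    have : 0 < N * ((d + 1) * (4 * N ^ 2 * d ^ 2)) := by positivity
    omega
  set C0 : ℕ := 8 * N * d ^ 2 * K0 with hC0
  filter_upwards [eventually_ge_atTop (4 * N * d ^ 2 * K0 + N * (2 + (C0 + 2) ^ 2) + 2 * N * d + K0 + d)] with n hn
  have hn0 : 0 < n := by omega
  have : NeZero n := ⟨hn0.ne'⟩
  have hn1 : 4 * N * d ^ 2 * K0 ≤ n := by omega
  have hn2 : N * (2 + (C0 + 2) ^ 2) ≤ n := by omega
  have hn3 : 2 * N * d ≤ n := by omega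
  have hn4 : K0 ≤ n := by omega
  have hn5 : d ≤ n := by omega
  set y : ℕ := n / N + 1 with hy
  set w : ℕ := y / d with hw
  have hdpos : 0 < d := by omega
  have hNpos : 0 < N := by omega
  -- n ≤ 2 N d w
  have hyN : n < N * y := by
    rw [hy]
    have := Nat.lt_mul_div_succ n hNpos
    exact this
  have hwd : y < d * (w + 1) := by
    rw [hw]
    exact Nat.lt_mul_div_succ y hdpos
  have hnw : n ≤ 2 * N * d * w := by
    have h1 : n < N * (d * (w + 1)) := lt_of_lt_of_le hyN (Nat.mul_le_mul le_rfl hwd.le)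
    have h2 : N * (d * (w + 1)) = N * d * w + N * d := by ring
    rw [h2] at h1
    have h3 : 2 * (N * d) ≤ n := by
      have : 2 * N * d = 2 * (N * d) := by ring
      omega
    have h4 : 2 * N * d * w = 2 * (N * d * w) := by ring
    rw [h4]
    omega
  set L : ℕ := w / (2 * (d * K0)) with hL
  have h2dK : 0 < 2 * (d * K0) := by positivity
  have hwK : 2 * (d * K0) ≤ w := by
    by_contra h
    push Not at h
    have h1 : 2 * N * d * w < 2 * N * d * (2 * (d * K0)) :=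
      Nat.mul_lt_mul_of_pos_left h (by positivity)
    have h2 : 2 * N * d * (2 * (d * K0)) = 4 * N * d ^ 2 * K0 := by ring
    omega
  have hL1 : 1 ≤ L := (Nat.one_le_div_iff h2dK).2 hwK
  have hLw : 2 * (d * K0) * L ≤ w := Nat.mul_div_le w _
  have hLw2 : w ≤ 4 * (d * K0) * L := by
    have h1 : w < 2 * (d * K0) * (L + 1) := Nat.lt_mul_div_succ w h2dK
    have h2 : 2 * (d * K0) * (L + 1) = 2 * (d * K0) * L + 2 * (d * K0) := by ring
    have h3 : 2 * (d * K0) ≤ 2 * (d * K0) * L := Nat.le_mul_of_pos_right _ (by omega)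
    have h4 : 4 * (d * K0) * L = 2 * (2 * (d * K0) * L) := by ring
    omega
  have hnL : n / L ≤ C0 := by
    apply Nat.div_le_of_le_mul
    calc n ≤ 2 * N * d * w := hnw
      _ ≤ 2 * N * d * (4 * (d * K0) * L) := Nat.mul_le_mul le_rfl hLw2
      _ = L * C0 := by rw [hC0]; ring
  have hyn : y ≤ n := by
    rw [hy]
    have h1 : n / N ≤ n / 2 := Nat.div_le_div_left hN (by norm_num)
    omega
  have hyd : d ≤ y := by
    by_contra h
    push Not at h
    have : w = 0 := Nat.div_eq_of_lt h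
    omega
  obtain ⟨E, hE, hEh, hEc⟩ := upper (n := n) d hd y K0 L hyn hK0pos hn4 hL1 hyd hLw hn5
  have hphi : (phi d n : ℝ) ≤ #E := by exact_mod_cast phi_le hE hEh
  -- real estimates
  have hnR : (0:ℝ) < n := by exact_mod_cast hn0
  have hdR : (0:ℝ) < d := by exact_mod_cast hdpos
  have hNR : (0:ℝ) < N := by exact_mod_cast hNpos
  have hn1R : (1:ℝ) ≤ n := by exact_mod_cast hn0
  have p1 : (n:ℝ) ^ (d - 1) = n * (n:ℝ) ^ (d - 2) := by
    rw [← pow_succ']; congr 1; omega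
  have p2 : (n:ℝ) ^ (d - 2) = n * (n:ℝ) ^ (d - 3) := by
    rw [← pow_succ']; congr 1; omega
  have p3 : (n:ℝ) ^ d = n * (n:ℝ) ^ (d - 1) := by
    rw [← pow_succ']; congr 1; omega
  have t0 : 2 * ((n.choose (d - 1) : ℕ) : ℝ) / d ≤ 2 / (d.factorial : ℝ) * (n:ℝ) ^ (d - 1) := by
    have h1 : ((n.choose (d - 1) : ℕ) : ℝ) ≤ (n:ℝ) ^ (d - 1) / ((d - 1).factorial : ℝ) :=
      Nat.choose_le_pow_div (d - 1) n
    have h2 : (d.factorial : ℝ) = d * ((d - 1).factorial : ℝ) := by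
      have : d.factorial = d * (d - 1).factorial := (Nat.mul_factorial_pred hdpos.ne').symm
      rw [this]; push_cast; ring
    have h3 : (0:ℝ) < ((d - 1).factorial : ℝ) := by positivity
    calc 2 * ((n.choose (d - 1) : ℕ) : ℝ) / d ≤ 2 * ((n:ℝ) ^ (d - 1) / ((d - 1).factorial : ℝ)) / d := by
          apply div_le_div_of_nonneg_right _ hdR.le
          linarith
      _ = _ := by rw [h2]; field_simp
  have t1 : (n:ℝ) * y * (n.choose (d - 3) : ℕ) ≤ (n:ℝ) ^ (d - 1) / N + (n:ℝ) ^ (d - 2) := by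
    have h1 : ((n.choose (d - 3) : ℕ) : ℝ) ≤ (n:ℝ) ^ (d - 3) := by exact_mod_cast Nat.choose_le_pow n (d - 3)
    have h2 : (y : ℝ) ≤ n / N + 1 := by
      rw [hy]
      push_cast
      have : ((n / N : ℕ) : ℝ) ≤ (n:ℝ) / N := Nat.cast_div_le
      linarith
    calc (n:ℝ) * y * (n.choose (d - 3) : ℕ) ≤ (n:ℝ) * (n / N + 1) * (n:ℝ) ^ (d - 3) := by
          apply mul_le_mul _ h1 (by positivity) (by positivity)
          exact mul_le_mul_of_nonneg_left h2 hnR.le
      _ = _ := by rw [p1, p2]; ring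
  have t2 : ((n / L + 2 : ℕ) : ℝ) ^ 2 * (n.choose (d - 2) : ℕ) ≤ ((C0:ℝ) + 2) ^ 2 * (n:ℝ) ^ (d - 2) := by
    have h1 : ((n.choose (d - 2) : ℕ) : ℝ) ≤ (n:ℝ) ^ (d - 2) := by exact_mod_cast Nat.choose_le_pow n (d - 2)
    have h2 : ((n / L + 2 : ℕ) : ℝ) ≤ (C0:ℝ) + 2 := by
      have : n / L + 2 ≤ C0 + 2 := by omega
      exact_mod_cast this
    apply mul_le_mul _ h1 (by positivity) (by positivity)
    exact pow_le_pow_left₀ (by positivity) h2 2
  have t3 : (n * d + 1) * (n : ℝ) ^ d / ((w : ℝ) ^ 2 * K0) ≤ (n:ℝ) ^ (d - 1) / N := by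
    have hwR : (n:ℝ) ≤ 2 * N * d * w := by exact_mod_cast hnw
    have hw0 : (0:ℝ) < w := by
      by_contra h
      have : (w:ℝ) = 0 := le_antisymm (not_lt.1 h) (by positivity)
      rw [this] at hwR
      linarith
    have hK0R : (K0:ℝ) = N * ((d + 1) * (4 * N ^ 2 * d ^ 2)) := by rw [hK0]; push_cast; ring
    have hK0R0 : (0:ℝ) < K0 := by exact_mod_cast hK0pos
    rw [div_le_div_iff₀ (by positivity) hNR, p3]
    have h1 : (n:ℝ) * d + 1 ≤ (d + 1) * n := by nlinarith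
    have h2 : (n:ℝ) ^ 2 ≤ (2 * N * d * w) ^ 2 := pow_le_pow_left₀ hnR.le hwR 2
    calc (n * d + 1) * ((n:ℝ) * (n:ℝ) ^ (d - 1)) * N ≤ ((d + 1) * n) * (n * (n:ℝ) ^ (d - 1)) * N := by
          apply mul_le_mul_of_nonneg_right _ hNR.le
          apply mul_le_mul_of_nonneg_right h1 (by positivity)
      _ = (n:ℝ) ^ (d - 1) * ((d + 1) * N * (n:ℝ) ^ 2) := by ring
      _ ≤ (n:ℝ) ^ (d - 1) * ((d + 1) * N * (2 * N * d * w) ^ 2) := by
          apply mul_le_mul_of_nonneg_left _ (by positivity)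
          apply mul_le_mul_of_nonneg_left h2 (by positivity)
      _ = _ := by rw [hK0R]; ring
  have t4 : (1 + ((C0:ℝ) + 2) ^ 2) * (n:ℝ) ^ (d - 2) + 1 ≤ (n:ℝ) ^ (d - 1) / N := by
    have h1 : (1:ℝ) ≤ (n:ℝ) ^ (d - 2) := one_le_pow₀ hn1R
    have h2 : (N:ℝ) * (2 + ((C0:ℝ) + 2) ^ 2) ≤ n := by exact_mod_cast hn2
    rw [le_div_iff₀ hNR, p1]
    calc ((1 + ((C0:ℝ) + 2) ^ 2) * (n:ℝ) ^ (d - 2) + 1) * N ≤
        ((1 + ((C0:ℝ) + 2) ^ 2) * (n:ℝ) ^ (d - 2) + (n:ℝ) ^ (d - 2)) * N := by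
          apply mul_le_mul_of_nonneg_right _ hNR.le
          linarith
      _ = (N * (2 + ((C0:ℝ) + 2) ^ 2)) * (n:ℝ) ^ (d - 2) := by ring
      _ ≤ n * (n:ℝ) ^ (d - 2) := mul_le_mul_of_nonneg_right h2 (by positivity)
  rw [div_le_iff₀ (by positivity)]
  have e : (2 / (d.factorial : ℝ) + 3 / N) * (n:ℝ) ^ (d - 1) =
      2 / (d.factorial : ℝ) * (n:ℝ) ^ (d - 1) + ((n:ℝ) ^ (d - 1) / N + (n:ℝ) ^ (d - 1) / N +
        (n:ℝ) ^ (d - 1) / N) := by ring
  rw [e]
  have hsplit : (1 + ((C0:ℝ) + 2) ^ 2) * (n:ℝ) ^ (d - 2) + 1 =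
      (n:ℝ) ^ (d - 2) + ((C0:ℝ) + 2) ^ 2 * (n:ℝ) ^ (d - 2) + 1 := by ring
  rw [hsplit] at t4
  linarith

/-- existence of blocking sets -/
lemma phi_attained (d n : ℕ) : ∃ E : Finset (Finset (Fin n)), IsBlocking d E ∧ #E = phi d n := by
  have hne : {m | ∃ E : Finset (Finset (Fin n)), IsBlocking d E ∧ #E = m}.Nonempty := by
    refine ⟨_, (univ : Finset (Fin n)).powersetCard d, ?_, rfl⟩
    apply isBlocking_of_labelled Subset.rfl
    intro f hf
    refine ⟨Function.surjInv hf, fun i => Function.surjInv_eq hf i, ?_⟩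
    rw [mem_powersetCard]
    refine ⟨subset_univ _, ?_⟩
    rw [card_image_of_injective _ (Function.injective_surjInv hf)]
    simp
  exact Nat.sInf_mem hne

/-- the limit of the lower bound -/
lemma lower_tendsto (d : ℕ) (hd : 2 ≤ d) :
    Tendsto (fun n : ℕ => ((n.choose (d - 2) : ℝ) / (n : ℝ) ^ (d - 2)) * (((n : ℝ) - (d - 1 : ℕ)) / n) /
      (d.choose 2 : ℝ)) atTop (𝓝 (2 / (d.factorial : ℝ))) := by
  have h1 : Tendsto (fun n : ℕ => (n.choose (d - 2) : ℝ) / (n : ℝ) ^ (d - 2)) atTop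
      (𝓝 (1 / ((d - 2).factorial : ℝ))) := by
    have h := (isEquivalent_choose (d - 2))
    have hz : ∀ᶠ n : ℕ in atTop, ((n:ℝ) ^ (d - 2) / ((d - 2).factorial : ℝ)) ≠ 0 := by
      filter_upwards [eventually_gt_atTop 0] with n hn
      have : (0:ℝ) < n := by exact_mod_cast hn
      positivity
    rw [Asymptotics.isEquivalent_iff_tendsto_one hz] at h
    have h2 := h.mul_const (1 / ((d - 2).factorial : ℝ))
    rw [one_mul] at h2
    apply h2.congr'
    filter_upwards [eventually_gt_atTop 0] with n hn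
    have : (0:ℝ) < n := by exact_mod_cast hn
    simp only [Pi.div_apply]
    field_simp
  have h2 : Tendsto (fun n : ℕ => ((n : ℝ) - (d - 1 : ℕ)) / n) atTop (𝓝 1) := by
    have h3 : Tendsto (fun n : ℕ => 1 - ((d - 1 : ℕ) : ℝ) / (n : ℝ)) atTop (𝓝 (1 - 0)) :=
      tendsto_const_nhds.sub (tendsto_const_div_atTop_nhds_zero_nat _)
    rw [sub_zero] at h3
    apply h3.congr'
    filter_upwards [eventually_gt_atTop 0] with n hn
    have : (0:ℝ) < n := by exact_mod_cast hn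
    field_simp
  have h3 := (h1.mul h2).div_const (d.choose 2 : ℝ)
  convert h3 using 2
  have e1 : (d.factorial : ℝ) = (d.choose 2 : ℝ) * 2 * ((d - 2).factorial : ℝ) := by
    have := Nat.choose_mul_factorial_mul_factorial hd
    have h4 : d.choose 2 * (2).factorial * (d - 2).factorial = d.factorial := this
    rw [← h4]
    push_cast
    simp [Nat.factorial]
  have hc : (0:ℝ) < (d.choose 2 : ℝ) := by exact_mod_cast Nat.choose_pos hd
  rw [e1]
  field_simp

/-- For every `d ≥ 4` the limit of `φ_d(n) / n^{d-1}` exists; it is equal to `2/d!`. -/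
theorem result (d : ℕ) (hd : 4 ≤ d) :
    Tendsto (fun n : ℕ => (phi d n : ℝ) / (n : ℝ) ^ (d - 1)) atTop (𝓝 (2 / (d.factorial : ℝ))) := by
  rw [tendsto_order]
  constructor
  · intro a ha
    have h1 := (tendsto_order.1 (lower_tendsto d (by omega))).1 a ha
    filter_upwards [h1, eventually_ge_atTop (d + 1)] with n hna hn
    refine lt_of_lt_of_le hna ?_
    obtain ⟨E, hE, hEc⟩ := phi_attained d n
    have h2 := lower hE (by omega) (by simpa using (by omega : d ≤ n))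
    rw [hEc, Fintype.card_fin] at h2
    have hn0 : 0 < n := by omega
    have hnR : (0:ℝ) < n := by exact_mod_cast hn0
    have h3 : (n.choose (d - 2) : ℝ) * ((n:ℝ) - (d - 1 : ℕ)) ≤ (phi d n : ℝ) * (d.choose 2 : ℝ) := by
      have h4 : ((n - (d - 1) : ℕ) : ℝ) = (n:ℝ) - (d - 1 : ℕ) := Nat.cast_sub (by omega)
      rw [← h4]
      exact_mod_cast h2
    have hc : (0:ℝ) < (d.choose 2 : ℝ) := by exact_mod_cast Nat.choose_pos (by omega)
    have p1 : (n:ℝ) ^ (d - 1) = n * (n:ℝ) ^ (d - 2) := by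
      rw [← pow_succ']; congr 1; omega
    rw [div_le_div_iff₀ hc (by positivity), p1]
    calc (n.choose (d - 2) : ℝ) / (n:ℝ) ^ (d - 2) * (((n:ℝ) - (d - 1 : ℕ)) / n) * (n * (n:ℝ) ^ (d - 2)) =
        (n.choose (d - 2) : ℝ) * ((n:ℝ) - (d - 1 : ℕ)) := by field_simp
      _ ≤ _ := h3
  · intro b hb
    obtain ⟨N, hN⟩ := exists_nat_gt (3 / (b - 2 / (d.factorial : ℝ)))
    have hpos : 0 < b - 2 / (d.factorial : ℝ) := by linarith
    filter_upwards [upper_eventually d (by omega) (N + 2) (by omega)] with n hn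
    refine lt_of_le_of_lt hn ?_
    have h1 : 3 / ((N + 2 : ℕ) : ℝ) < b - 2 / (d.factorial : ℝ) := by
      rw [div_lt_iff₀ (by positivity)]
      rw [div_lt_iff₀ hpos] at hN
      push_cast
      nlinarith
    linarith

end Pool.Agent.Results.MP_d4e795_co.LimitExists
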